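import Pool.Agent.H.MP_00a158_co.B

namespace Pool.Agent.Results.MP_00a158_co.Yes
open Finset

/-- The cells `(i,j)`, `1 ≤ i ≤ m`, `1 ≤ j ≤ n`. -/
def grid (m n : ℕ) : Finset (ℕ × ℕ) := Icc 1 m ×ˢ Icc 1 n

/-- Order ideals: down-sets of cells for the coordinatewise order. -/
def IsIdeal (m n : ℕ) (A : Finset (ℕ × ℕ)) : Prop :=
  A ⊆ grid m n ∧ ∀ u ∈ A, ∀ v ∈ grid m n, v.1 ≤ u.1 → v.2 ≤ u.2 → v ∈ A

/-- The closed neighbourhood `N[A]` in the grid graph. -/
def nbhd (m n : ℕ) (A : Finset (ℕ × ℕ)) : Finset (ℕ × ℕ) :=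
  (grid m n).filter (fun v => v ∈ A ∨ ∃ u ∈ A, Nat.dist u.1 v.1 + Nat.dist u.2 v.2 = 1)

/-- `ν(s)`: the least size of `N[A]` over order ideals `A` of size `s`. -/
noncomputable def nu (m n s : ℕ) : ℕ :=
  sInf {k | ∃ A, IsIdeal m n A ∧ A.card = s ∧ (nbhd m n A).card = k}

/-- The antidiagonal chain. -/
def a (m n l : ℕ) : ℕ := ((grid m n).filter (fun v => v.1 + v.2 ≤ l + 2)).card

/-- The weight `D(m,n)` of the antidiagonal chain, `l = 0, …, m+n-2`. -/
def D (m n : ℕ) : ℕ := ∑ l ∈ range (m + n - 2 + 1), min (a m n l) (m * n - a m n l)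

theorem result (m n : ℕ) (hn : 1 ≤ n) (hm : n ≤ m) (L : ℕ) (c : ℕ → ℕ)
    (hc : ∀ l, l ≤ L → c l ≤ m * n) (hs : ∀ l, l < L → nu m n (c l) ≤ c (l + 1)) :
    ∑ l ∈ range (L + 1), min (c l) (m * n - c l) ≤ D m n := by
  have ha : ∀ l, a m n l = H.MP_00a158_co.AA m n (l + 1) := fun l => by
    unfold a H.MP_00a158_co.AA
    congr 1
    exact filter_congr fun v _ => by omega
  have := H.MP_00a158_co.chain hn hm (fun k => if k ≤ L then c k else m * n) (fun k => by
    by_cases h1 : k < L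
    · rw [if_pos h1.le, if_pos (by omega)]
      exact H.MP_00a158_co.step_of_nu hn hm (hc k h1.le) (hs k h1)
    · rw [if_neg (by omega : ¬ k + 1 ≤ L)]
      have hx : (if k ≤ L then c k else m * n) ≤ m * n := by
        split_ifs with h2
        exacts [hc k h2, le_rfl]
      obtain ⟨A, hA, h3⟩ := H.MP_00a158_co.exists_ideal m n _ hx
      obtain ⟨b, h4, h5⟩ := H.MP_00a158_co.iso hn hm hA
      have h6 : (H.MP_00a158_co.nbhd m n A).card ≤ m * n := by
        rw [← H.MP_00a158_co.card_grid]; exact card_filter_le _ _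
      rw [h3] at h4 h5
      exact ⟨b, by omega, h5⟩) (L + 1) (if_neg (by omega))
  rw [D, show m + n - 2 + 1 = m + n - 1 by omega]
  simp only [ha]
  refine le_trans (le_of_eq (sum_congr rfl fun k hk => ?_)) this
  have := mem_range.1 hk
  rw [if_pos (by omega)]

end Pool.Agent.Results.MP_00a158_co.Yes
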